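import Mathlib
import Pool.Agent.Q88.CI.Final

set_option autoImplicit false

namespace Pool.Agent.Results.MP_4b5f87_an.BasePoints

open Q88.CI

/-- There are a C*-algebra `A`, two single-variable systems `(A, α)` and `(A, β)` with injective
unital *-endomorphisms, and one operator algebra `D` (a closed unital subalgebra of a C*-algebra)
that is associated with `(A, α)` and also with `(A, β)`, while the correspondences `X_(A,α)` and
`X_(A,β)` are not unitarily equivalent. -/
theorem result : ∃ (A : Type) (_ : CStarAlgebra A) (α β : Fin 1 → A →⋆ₐ[ℂ] A)
    (B : Type) (_ : CStarAlgebra B) (D : Subalgebra ℂ B),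
    (∀ i, Function.Injective (α i)) ∧ (∀ i, Function.Injective (β i)) ∧
      IsAssociated α D ∧ IsAssociated β D ∧ ¬ UnitarilyEquivalent α β :=
  final

end Pool.Agent.Results.MP_4b5f87_an.BasePoints
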